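import Pool.Agent.H84.KBOX.Stmts

/-!
# Row CEL: most cells of a leaf are leaves
-/

set_option autoImplicit false

namespace Pool.Agent.H40.KBX

open Finset Real
open Pool.Agent.H49.Ent Pool.Agent.H32.Dense Pool.STK Pool.KAF Pool.KAL Pool.KS3 Pool.KBX

section sub

variable {n : ℕ} {Ω Ξ : Type} [Fintype Ω] {L a : ℕ} {p : Ω → ℝ} {x : Ω → Ξ}
    {pos : Ξ → Option (Fin n) → ℕ} {c : Option (Fin n) → ℕ}

open Classical in
lemma sumOc (f : Ω → ℝ) :
    ∑ ω : Oc L a p x pos c, f ω.1 =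
      ∑ ω, (if 0 < p ω ∧ cel (2 ^ (L - a)) pos (x ω) = c then f ω else 0) := by
  rw [← Finset.sum_filter]
  exact (@Finset.sum_subtype Ω ℝ _ (fun ω => 0 < p ω ∧ cel (2 ^ (L - a)) pos (x ω) = c)
    (show Fintype (Oc L a p x pos c) from inferInstance)
    (univ.filter fun ω => 0 < p ω ∧ cel (2 ^ (L - a)) pos (x ω) = c) (by simp) f).symm

lemma pc_zero (hp : ∀ ω, 0 ≤ p ω) {ω : Ω}
    (h : ¬ (0 < p ω ∧ cel (2 ^ (L - a)) pos (x ω) = c)) : pc L a p x pos c ω = 0 := by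
  by_contra h0
  apply h
  have h1 : 0 < pc L a p x pos c ω :=
    lt_of_le_of_ne (cond_nonneg hp _ _ ω) (Ne.symm h0)
  exact (cond_pos_iff hp _ _ ω).1 h1

lemma lawOc {S : Type} (hp : ∀ ω, 0 ≤ p ω) (X : Ω → S) (s : S) :
    law (fun ω : Oc L a p x pos c => pc L a p x pos c ω.1) (fun ω => X ω.1) s =
      law (pc L a p x pos c) X s := by
  classical
  unfold law
  rw [sumOc (L := L) (a := a) (p := p) (x := x) (pos := pos) (c := c)
    (fun ω => if X ω = s then pc L a p x pos c ω else 0)]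
  refine Finset.sum_congr rfl fun ω _ => ?_
  by_cases h : 0 < p ω ∧ cel (2 ^ (L - a)) pos (x ω) = c
  · rw [if_pos h]
  · rw [if_neg h, pc_zero hp h]; simp

lemma HOc {S : Type} (hp : ∀ ω, 0 ≤ p ω) (X : Ω → S) :
    H (fun ω : Oc L a p x pos c => pc L a p x pos c ω.1) (fun ω => X ω.1) =
      H (pc L a p x pos c) X := by
  classical
  unfold H
  simp only [lawOc hp X]
  rw [sumOc (L := L) (a := a) (p := p) (x := x) (pos := pos) (c := c)
    (fun ω => pc L a p x pos c ω * Real.log (law (pc L a p x pos c) X (X ω)))]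
  congr 1
  refine Finset.sum_congr rfl fun ω _ => ?_
  by_cases h : 0 < p ω ∧ cel (2 ^ (L - a)) pos (x ω) = c
  · rw [if_pos h]
  · rw [if_neg h, pc_zero hp h]; simp

lemma CHOc {S U : Type} (hp : ∀ ω, 0 ≤ p ω) (X : Ω → S) (Z : Ω → U) :
    CH (fun ω : Oc L a p x pos c => pc L a p x pos c ω.1) (fun ω => X ω.1) (fun ω => Z ω.1) =
      CH (pc L a p x pos c) X Z := by
  unfold CH
  rw [HOc hp Z, HOc hp (fun ω => (X ω, Z ω))]

lemma pc_isLaw (hp : IsLaw p)
    (hc : 0 < law p (fun ω => cel (2 ^ (L - a)) pos (x ω)) c) : IsLaw (pc L a p x pos c) :=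
  ⟨fun ω => cond_nonneg hp.nonneg _ _ ω, sum_cond p _ hc.ne'⟩

lemma Oc_isLaw (hp : IsLaw p)
    (hc : 0 < law p (fun ω => cel (2 ^ (L - a)) pos (x ω)) c) :
    IsLaw (fun ω : Oc L a p x pos c => pc L a p x pos c ω.1) := by
  classical
  refine ⟨fun ω => cond_nonneg hp.nonneg _ _ ω.1, ?_⟩
  rw [sumOc (L := L) (a := a) (p := p) (x := x) (pos := pos) (c := c)
    (fun ω => pc L a p x pos c ω), ← (pc_isLaw hp hc).sum_one]
  refine Finset.sum_congr rfl fun ω _ => ?_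
  by_cases h : 0 < p ω ∧ cel (2 ^ (L - a)) pos (x ω) = c
  · rw [if_pos h]
  · rw [if_neg h, pc_zero hp.nonneg h]

end sub

section geo

variable {n : ℕ} {Ω Λ Ξ : Type} [Fintype Ω] {L a : ℕ} {C₀ : ℝ} {p : Ω → ℝ} {lam : Ω → Λ}
    {x : Ω → Ξ} {T : Ξ → ℕ} {pos : Ξ → Option (Fin n) → ℕ} {A B : Λ → Option (Fin n) → ℝ}
    {c : Option (Fin n) → ℕ}

lemma scaled (hl : Leaf n (2 ^ L) C₀ p lam x T pos A B) (ha : a ≤ L) (ω : Ω)
    (i : Option (Fin n)) :
    |(pos (x ω) i : ℝ) / 2 ^ (L - a) -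
      (2 ^ a * A (lam ω) i + (T (x ω) : ℝ) / 2 ^ (L - a) * B (lam ω) i)| ≤
      C₀ / 2 ^ (L - a) := by
  have h := hl.near ω i
  push_cast at h
  have hL : (2 : ℝ) ^ L = 2 ^ a * 2 ^ (L - a) := by rw [← pow_add]; congr 1; omega
  have h2 : (0 : ℝ) < 2 ^ (L - a) := by positivity
  have h3 : (0 : ℝ) < 2 ^ a := by positivity
  have e : (pos (x ω) i : ℝ) / 2 ^ (L - a) -
      (2 ^ a * A (lam ω) i + (T (x ω) : ℝ) / 2 ^ (L - a) * B (lam ω) i) =
      2 ^ a * ((pos (x ω) i : ℝ) / 2 ^ L - (A (lam ω) i + (T (x ω) : ℝ) / 2 ^ L * B (lam ω) i)) := by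
    rw [hL]; field_simp
  rw [e, abs_mul, abs_of_pos h3]
  calc (2 : ℝ) ^ a * _ ≤ 2 ^ a * (C₀ / 2 ^ L) := mul_le_mul_of_nonneg_left h h3.le
    _ = C₀ / 2 ^ (L - a) := by rw [hL]; field_simp

lemma dm (m r : ℕ) (hr : 0 < r) : (m : ℝ) / r = ((m / r : ℕ) : ℝ) + ((m % r : ℕ) : ℝ) / r := by
  have h := Nat.div_add_mod m r
  have h2 : (m : ℝ) = r * ((m / r : ℕ) : ℝ) + ((m % r : ℕ) : ℝ) := by exact_mod_cast h.symm
  have hr' : (0 : ℝ) < r := by exact_mod_cast hr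
  rw [div_eq_iff hr'.ne', add_mul, div_mul_cancel₀ _ hr'.ne']
  linarith only [h2]

lemma nearOc (hl : Leaf n (2 ^ L) C₀ p lam x T pos A B) (ha : a ≤ L)
    (ω : Oc L a p x pos c) (i : Option (Fin n)) :
    |((pos (x ω.1) i % 2 ^ (L - a) : ℕ) : ℝ) / ((2 ^ (L - a) : ℕ) : ℝ) -
      (Ac a A B c (lamc L a p lam x T pos c ω) i +
        ((T (x ω.1) % 2 ^ (L - a) : ℕ) : ℝ) / ((2 ^ (L - a) : ℕ) : ℝ) * B (lam ω.1) i)| ≤
      C₀ / ((2 ^ (L - a) : ℕ) : ℝ) := by
  have h := scaled hl ha ω.1 i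
  have hr : 0 < 2 ^ (L - a) := by positivity
  have e1 := dm (pos (x ω.1) i) (2 ^ (L - a)) hr
  have e2 := dm (T (x ω.1)) (2 ^ (L - a)) hr
  have e3 : ((2 ^ (L - a) : ℕ) : ℝ) = (2 : ℝ) ^ (L - a) := by push_cast; rfl
  have hc : pos (x ω.1) i / 2 ^ (L - a) = c i := congrFun ω.2.2 i
  rw [hc] at e1
  rw [e3] at e1 e2 ⊢
  have h3 : (2 : ℝ) ^ a ≠ 0 := by positivity
  have e4 : ((pos (x ω.1) i % 2 ^ (L - a) : ℕ) : ℝ) / (2 : ℝ) ^ (L - a) -
      (Ac a A B c (lamc L a p lam x T pos c ω) i +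
        ((T (x ω.1) % 2 ^ (L - a) : ℕ) : ℝ) / (2 : ℝ) ^ (L - a) * B (lam ω.1) i) =
      (pos (x ω.1) i : ℝ) / 2 ^ (L - a) -
      (2 ^ a * A (lam ω.1) i + (T (x ω.1) : ℝ) / 2 ^ (L - a) * B (lam ω.1) i) := by
    rw [e1, e2]
    unfold Ac lamc
    simp only
    field_simp
    ring
  rw [e4]
  exact h

lemma leafOc (hl : Leaf n (2 ^ L) C₀ p lam x T pos A B) (hC : 1 ≤ C₀) (ha : a ≤ L)
    (hc : 0 < law p (fun ω => cel (2 ^ (L - a)) pos (x ω)) c) :
    Leaf n (2 ^ (L - a)) (3 * C₀) (fun ω : Oc L a p x pos c => pc L a p x pos c ω.1)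
      (lamc L a p lam x T pos c) (fun ω => x ω.1) (fun ξ => T ξ % 2 ^ (L - a))
      (fun ξ i => pos ξ i % 2 ^ (L - a)) (Ac a A B c) (fun l => B l.1) := by
  have hr : 0 < 2 ^ (L - a) := by positivity
  have hr' : (0 : ℝ) < ((2 ^ (L - a) : ℕ) : ℝ) := by exact_mod_cast hr
  have hr1 : (1 : ℝ) ≤ ((2 ^ (L - a) : ℕ) : ℝ) := by exact_mod_cast hr
  refine ⟨Oc_isLaw hl.isLaw hc, fun ω => Nat.mod_lt _ hr, fun ω i => Nat.mod_lt _ hr,
    fun ω i => ?_, fun ω i => ?_, fun ω i => ?_⟩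
  · refine (nearOc hl ha ω i).trans ?_
    exact div_le_div_of_nonneg_right (by linarith only [hC]) hr'.le
  · have h1 := nearOc hl ha ω i
    have h2 : C₀ / ((2 ^ (L - a) : ℕ) : ℝ) ≤ C₀ := div_le_self (by linarith only [hC]) hr1
    have h3 : ((pos (x ω.1) i % 2 ^ (L - a) : ℕ) : ℝ) / ((2 ^ (L - a) : ℕ) : ℝ) ≤ 1 := by
      rw [div_le_one hr']
      exact_mod_cast (Nat.mod_lt _ hr).le
    have h4 : 0 ≤ ((pos (x ω.1) i % 2 ^ (L - a) : ℕ) : ℝ) / ((2 ^ (L - a) : ℕ) : ℝ) := by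
      positivity
    have h5 : |((T (x ω.1) % 2 ^ (L - a) : ℕ) : ℝ) / ((2 ^ (L - a) : ℕ) : ℝ) *
        B (lam ω.1) i| ≤ C₀ := by
      rw [abs_mul]
      have h6 : |((T (x ω.1) % 2 ^ (L - a) : ℕ) : ℝ) / ((2 ^ (L - a) : ℕ) : ℝ)| ≤ 1 := by
        rw [abs_of_nonneg (by positivity), div_le_one hr']
        exact_mod_cast (Nat.mod_lt _ hr).le
      calc _ ≤ 1 * C₀ := mul_le_mul h6 (hl.B_le ω.1 i) (abs_nonneg _) (by norm_num)
        _ = C₀ := one_mul _
    rw [abs_le] at h1 h5 ⊢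
    constructor <;> linarith [h1.1, h1.2, h5.1, h5.2]
  · exact (hl.B_le ω.1 i).trans (by linarith only [hC])

lemma ncfOc {δ ε : ℝ} (hl : Leaf n (2 ^ L) C₀ p lam x T pos A B)
    (hn : NCF p lam x B δ (fun _ => ε))
    (hc : 0 < law p (fun ω => cel (2 ^ (L - a)) pos (x ω)) c) :
    NCF (fun ω : Oc L a p x pos c => pc L a p x pos c ω.1) (lamc L a p lam x T pos c)
      (fun ω => x ω.1) (fun l => B l.1) δ (fun _ => ε) := by
  classical
  intro ω hω u hu
  have hp := hl.isLaw.nonneg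
  have h := hn ω.1 ω.2.1 u hu
  rw [lawOc hp x (x ω.1)]
  have e1 := sumOc (L := L) (a := a) (p := p) (x := x) (pos := pos) (c := c)
    (fun ω' => if x ω' = x ω.1 ∧ |∑ i, u i * B (lam ω') (some i)| ≤ δ then
      pc L a p x pos c ω' else 0)
  have e2 : ∀ ω', (if 0 < p ω' ∧ cel (2 ^ (L - a)) pos (x ω') = c then
      (if x ω' = x ω.1 ∧ |∑ i, u i * B (lam ω') (some i)| ≤ δ then
      pc L a p x pos c ω' else 0) else 0) =
      (if x ω' = x ω.1 ∧ |∑ i, u i * B (lam ω') (some i)| ≤ δ then p ω' else 0) /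
        law p (fun ω => cel (2 ^ (L - a)) pos (x ω)) c := by
    intro ω'
    by_cases h1 : x ω' = x ω.1 ∧ |∑ i, u i * B (lam ω') (some i)| ≤ δ
    · have h2 : cel (2 ^ (L - a)) pos (x ω') = c := by rw [h1.1]; exact ω.2.2
      rw [if_pos h1, if_pos h1]
      by_cases h3 : 0 < p ω'
      · rw [if_pos ⟨h3, h2⟩]
        unfold pc Pool.Agent.H49.Ent.cond
        rw [if_pos h2]
      · have h4 : p ω' = 0 := le_antisymm (not_lt.1 h3) (hp ω')
        rw [if_neg (fun h => h3 h.1), h4, zero_div]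
    · rw [if_neg h1, if_neg h1]; simp
  have e3 : law (pc L a p x pos c) x (x ω.1) =
      law p x (x ω.1) / law p (fun ω => cel (2 ^ (L - a)) pos (x ω)) c := by
    unfold pc
    rw [law_cond]
    congr 1
    unfold law
    refine Finset.sum_congr rfl fun ω' _ => ?_
    by_cases h1 : x ω' = x ω.1
    · have h2 : cel (2 ^ (L - a)) pos (x ω') = c := by rw [h1]; exact ω.2.2
      rw [if_pos h1, if_pos (Prod.ext h1 h2)]
    · rw [if_neg h1, if_neg (by simp [h1])]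
  rw [e3]
  have e4 : ∑ ω' : Oc L a p x pos c,
      (if (fun ω : Oc L a p x pos c => x ω.1) ω' = (fun ω : Oc L a p x pos c => x ω.1) ω ∧
        |∑ i, u i * (fun l : Λ × ℕ => B l.1) (lamc L a p lam x T pos c ω') (some i)| ≤ δ then
        (fun ω : Oc L a p x pos c => pc L a p x pos c ω.1) ω' else 0) =
      (∑ ω', (if x ω' = x ω.1 ∧ |∑ i, u i * B (lam ω') (some i)| ≤ δ then p ω' else 0)) /
        law p (fun ω => cel (2 ^ (L - a)) pos (x ω)) c := by
    rw [Finset.sum_div]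
    rw [← Finset.sum_congr rfl fun ω' _ => e2 ω']
    exact e1
  rw [e4, ← mul_div_assoc]
  exact div_le_div_of_nonneg_right h hc.le

lemma thinOc {e₃ : ℝ} (hl : Leaf n (2 ^ L) C₀ p lam x T pos A B)
    (hthin : ∀ F : Finset Ω, (∀ ω ∈ F, 0 < p ω) →
      (∀ ω ∈ F, ∀ ω' ∈ F, bas pos (x ω) = bas pos (x ω')) →
      (∀ ω ∈ F, ∀ ω' ∈ F, x ω = x ω' → ω = ω') → (F.card : ℝ) ≤ Real.exp e₃)
    (hc : 0 < law p (fun ω => cel (2 ^ (L - a)) pos (x ω)) c) :
    H (fun ω : Oc L a p x pos c => pc L a p x pos c ω.1) (fun ω => x ω.1) ≤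
      n * (((L - a : ℕ) : ℝ) * Real.log 2) + e₃ := by
  classical
  have hp := hl.isLaw.nonneg
  have hq := pc_isLaw (L := L) (a := a) (pos := pos) (x := x) (c := c) hl.isLaw hc
  rw [HOc hp x]
  set U := univ.filter (fun ω => 0 < p ω ∧ cel (2 ^ (L - a)) pos (x ω) = c) with hU
  have hF : ∀ ω, 0 < pc L a p x pos c ω → x ω ∈ U.image x := by
    intro ω hω
    refine Finset.mem_image_of_mem x ?_
    rw [hU, Finset.mem_filter]
    exact ⟨Finset.mem_univ _, (cond_pos_iff hp _ _ ω).1 hω⟩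
  refine (H_le_log_card hq.nonneg hq.sum_one x (U.image x) hF).trans ?_
  have hne : (U.image x).Nonempty := by
    by_contra hcon
    rw [Finset.not_nonempty_iff_eq_empty] at hcon
    have h0 : ∑ ω, pc L a p x pos c ω = 0 := by
      refine Finset.sum_eq_zero fun ω _ => ?_
      by_contra h1
      have h2 := hF ω (lt_of_le_of_ne (hq.nonneg ω) (Ne.symm h1))
      rw [hcon] at h2
      exact absurd h2 (Finset.notMem_empty _)
    rw [hq.sum_one] at h0
    exact one_ne_zero h0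
  have hcard : (0 : ℝ) < ((U.image x).card : ℝ) := by exact_mod_cast Finset.card_pos.2 hne
  have h1 : (U.image x).card ≤ ⌊Real.exp e₃⌋₊ * ((U.image x).image (bas pos)).card := by
    refine Finset.card_le_mul_card_image _ _ fun y _ => ?_
    refine Nat.le_floor ?_
    set G := (U.image x).filter (fun ξ => bas pos ξ = y) with hG
    have h2 : ∀ ξ ∈ G, ∃ ω ∈ U, x ω = ξ := fun ξ hξ =>
      Finset.mem_image.1 (Finset.mem_filter.1 hξ).1
    have h3 : ∃ g : Ξ → Ω, ∀ ξ ∈ G, g ξ ∈ U ∧ x (g ξ) = ξ := by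
      obtain ⟨ω₀, -⟩ := Finset.mem_image.1 hne.choose_spec
      refine ⟨fun ξ => if h : ∃ ω ∈ U, x ω = ξ then h.choose else ω₀, fun ξ hξ => ?_⟩
      have h4 := h2 ξ hξ
      simp only
      rw [dif_pos h4]
      exact h4.choose_spec
    obtain ⟨g, hg⟩ := h3
    have h5 : (G.image g).card = G.card := by
      refine Finset.card_image_of_injOn fun ξ hξ ξ' hξ' h => ?_
      rw [← (hg ξ hξ).2, ← (hg ξ' hξ').2]
      exact congrArg x h
    rw [← h5]
    refine hthin (G.image g) ?_ ?_ ?_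
    · intro ω hω
      obtain ⟨ξ, hξ, rfl⟩ := Finset.mem_image.1 hω
      exact (Finset.mem_filter.1 (hg ξ hξ).1).2.1
    · intro ω hω ω' hω'
      obtain ⟨ξ, hξ, rfl⟩ := Finset.mem_image.1 hω
      obtain ⟨ξ', hξ', rfl⟩ := Finset.mem_image.1 hω'
      rw [(hg ξ hξ).2, (hg ξ' hξ').2, (Finset.mem_filter.1 hξ).2, (Finset.mem_filter.1 hξ').2]
    · intro ω hω ω' hω' h
      obtain ⟨ξ, hξ, rfl⟩ := Finset.mem_image.1 hω
      obtain ⟨ξ', hξ', rfl⟩ := Finset.mem_image.1 hω'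
      rw [(hg ξ hξ).2, (hg ξ' hξ').2] at h
      rw [h]
  have h2 : ((U.image x).image (bas pos)).card ≤ (2 ^ (L - a)) ^ n := by
    have h3 : (U.image x).image (bas pos) ⊆ Fintype.piFinset (fun i : Fin n =>
        Finset.Ico (2 ^ (L - a) * c (some i)) (2 ^ (L - a) * c (some i) + 2 ^ (L - a))) := by
      intro y hy
      obtain ⟨ξ, hξ, rfl⟩ := Finset.mem_image.1 hy
      obtain ⟨ω, hω, rfl⟩ := Finset.mem_image.1 hξ
      rw [Fintype.mem_piFinset]
      intro i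
      have h4 : pos (x ω) (some i) / 2 ^ (L - a) = c (some i) :=
        congrFun (Finset.mem_filter.1 hω).2.2 (some i)
      have h5 := Nat.div_add_mod (pos (x ω) (some i)) (2 ^ (L - a))
      have h6 : pos (x ω) (some i) % 2 ^ (L - a) < 2 ^ (L - a) :=
        Nat.mod_lt _ (by positivity)
      rw [h4] at h5
      rw [Finset.mem_Ico]
      change 2 ^ (L - a) * c (some i) ≤ pos (x ω) (some i) ∧
        pos (x ω) (some i) < 2 ^ (L - a) * c (some i) + 2 ^ (L - a)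
      omega
    refine (Finset.card_le_card h3).trans ?_
    rw [Fintype.card_piFinset]
    simp
  have h3 : ((U.image x).card : ℝ) ≤ Real.exp e₃ * ((2 : ℝ) ^ (L - a)) ^ n := by
    calc ((U.image x).card : ℝ) ≤ ((⌊Real.exp e₃⌋₊ * ((U.image x).image (bas pos)).card : ℕ) : ℝ) := by
          exact_mod_cast h1
      _ = (⌊Real.exp e₃⌋₊ : ℝ) * (((U.image x).image (bas pos)).card : ℝ) := by push_cast; ring
      _ ≤ Real.exp e₃ * ((2 : ℝ) ^ (L - a)) ^ n := by
          refine mul_le_mul (Nat.floor_le (Real.exp_pos _).le) ?_ (Nat.cast_nonneg _)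
            (Real.exp_pos _).le
          exact_mod_cast h2
  refine (Real.log_le_log hcard h3).trans ?_
  rw [Real.log_mul (Real.exp_pos _).ne' (by positivity), Real.log_exp, Real.log_pow,
    Real.log_pow]
  linarith only

lemma timeOc {e₁ K' : ℝ} {μ : Λ → ℝ} (hl : Leaf n (2 ^ L) C₀ p lam x T pos A B) (ha : a ≤ L)
    (ht : ∀ ω, law p (fun ω => (lam ω, T (x ω))) (lam ω, T (x ω)) ≤
      Real.exp e₁ * μ (lam ω) / 2 ^ L)
    (hc : 0 < law p (fun ω => cel (2 ^ (L - a)) pos (x ω)) c) (hK : 0 < K')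
    (hμ : ∀ l, 0 ≤ μ l)
    (hν : (open Classical in ∑ z ∈ (univ.filter fun ω => 0 < p ω ∧
      cel (2 ^ (L - a)) pos (x ω) = c).image (fun ω => (lam ω, T (x ω) / 2 ^ (L - a))),
        μ z.1 / 2 ^ a) ≤ K' * law p (fun ω => cel (2 ^ (L - a)) pos (x ω)) c) :
    ((L - a : ℕ) : ℝ) * Real.log 2 -
      CH (fun ω : Oc L a p x pos c => pc L a p x pos c ω.1)
        (fun ω => T (x ω.1) % 2 ^ (L - a)) (lamc L a p lam x T pos c) ≤
      e₁ + Real.log K' := by
  classical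
  have hp := hl.isLaw.nonneg
  have hq := pc_isLaw (L := L) (a := a) (pos := pos) (x := x) (c := c) hl.isLaw hc
  have e0 : CH (fun ω : Oc L a p x pos c => pc L a p x pos c ω.1)
        (fun ω => T (x ω.1) % 2 ^ (L - a)) (lamc L a p lam x T pos c) =
      CH (pc L a p x pos c) (fun ω => T (x ω) % 2 ^ (L - a))
        (fun ω => (lam ω, T (x ω) / 2 ^ (L - a))) :=
    CHOc hp (fun ω => T (x ω) % 2 ^ (L - a)) (fun ω => (lam ω, T (x ω) / 2 ^ (L - a)))
  rw [e0]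
  set q := pc L a p x pos c with hqdef
  set X' : Ω → ℕ := fun ω => T (x ω) % 2 ^ (L - a) with hX'
  set Z' : Ω → Λ × ℕ := fun ω => (lam ω, T (x ω) / 2 ^ (L - a)) with hZ'
  set P := law p (fun ω => cel (2 ^ (L - a)) pos (x ω)) c with hP
  set K := Real.exp e₁ * K' with hKdef
  have hKpos : 0 < K := mul_pos (Real.exp_pos _) hK
  have hL : (2 : ℝ) ^ L = 2 ^ a * 2 ^ (L - a) := by rw [← pow_add]; congr 1; omega
  have hr : (0 : ℝ) < 2 ^ (L - a) := by positivity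
  have h2a : (0 : ℝ) < 2 ^ a := by positivity
  have k1 : ∀ ω, 0 < q ω → law q (fun ω => (X' ω, Z' ω)) (X' ω, Z' ω) ≤
      Real.exp e₁ * (μ (Z' ω).1 / 2 ^ a) / P / 2 ^ (L - a) := by
    intro ω hω
    obtain ⟨hω1, hω2⟩ := (cond_pos_iff hp _ _ ω).1 hω
    rw [hqdef]
    unfold pc
    rw [law_cond]
    have h1 : law p (fun ω => ((X' ω, Z' ω), cel (2 ^ (L - a)) pos (x ω)))
        ((X' ω, Z' ω), c) ≤ law p (fun ω => (lam ω, T (x ω))) (lam ω, T (x ω)) := by
      have hdet : Det p (fun ω => ((X' ω, Z' ω), cel (2 ^ (L - a)) pos (x ω)))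
          (fun ω => (lam ω, T (x ω))) := by
        intro ω ω' _ _ h
        simp only [hX', hZ', Prod.mk.injEq] at h
        obtain ⟨⟨h1, h2, h3⟩, -⟩ := h
        refine Prod.ext h2 ?_
        change T (x ω) = T (x ω')
        rw [← Nat.div_add_mod (T (x ω)) (2 ^ (L - a)), h1, h3, Nat.div_add_mod]
      have h2 := law_mono_of_det hp hdet hω1
      simp only [hω2] at h2
      exact h2
    calc _ ≤ (Real.exp e₁ * μ (lam ω) / 2 ^ L) / P :=
          div_le_div_of_nonneg_right (h1.trans (ht ω)) hc.le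
      _ = _ := by rw [hL]; simp only [hZ']; field_simp
  have k2 : CH q X' Z' = ∑ ω, q ω * (-(Real.log (law q (fun ω => (X' ω, Z' ω)) (X' ω, Z' ω)) -
      Real.log (law q Z' (Z' ω)))) := by
    unfold CH H
    rw [← Finset.sum_neg_distrib, ← Finset.sum_neg_distrib, ← Finset.sum_sub_distrib]
    refine Finset.sum_congr rfl fun ω _ => ?_
    ring
  have k3 : ((L - a : ℕ) : ℝ) * Real.log 2 = ∑ ω, q ω * Real.log ((2 : ℝ) ^ (L - a)) := by
    rw [← Finset.sum_mul, hq.sum_one, one_mul, Real.log_pow]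
  rw [k2, k3, ← Finset.sum_sub_distrib]
  have k4 : ∀ ω, q ω * Real.log ((2 : ℝ) ^ (L - a)) -
      q ω * (-(Real.log (law q (fun ω => (X' ω, Z' ω)) (X' ω, Z' ω)) -
      Real.log (law q Z' (Z' ω)))) ≤
      q ω * (Real.log K - 1) + q ω * (Real.exp e₁ * (μ (Z' ω).1 / 2 ^ a) / P /
        law q Z' (Z' ω)) / K := by
    intro ω
    by_cases h0 : q ω = 0
    · simp [h0]
    have hω : 0 < q ω := lt_of_le_of_ne (hq.nonneg ω) (Ne.symm h0)
    have l1 := law_pos hq.nonneg (fun ω => (X' ω, Z' ω)) hω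
    have l2 := law_pos hq.nonneg Z' hω
    set u := (2 : ℝ) ^ (L - a) * law q (fun ω => (X' ω, Z' ω)) (X' ω, Z' ω) / law q Z' (Z' ω)
      with hu
    have hupos : 0 < u := by rw [hu]; positivity
    have h1 : Real.log u = Real.log ((2 : ℝ) ^ (L - a)) +
        Real.log (law q (fun ω => (X' ω, Z' ω)) (X' ω, Z' ω)) - Real.log (law q Z' (Z' ω)) := by
      rw [hu, Real.log_div (by positivity) l2.ne', Real.log_mul (by positivity) l1.ne']
    have h2 : Real.log u ≤ Real.log K + (u / K - 1) := by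
      have h3 := Real.log_le_sub_one_of_pos (div_pos hupos hKpos)
      rw [Real.log_div hupos.ne' hKpos.ne'] at h3
      linarith only [h3]
    have h3 : u ≤ Real.exp e₁ * (μ (Z' ω).1 / 2 ^ a) / P / law q Z' (Z' ω) := by
      rw [hu]
      refine div_le_div_of_nonneg_right ?_ l2.le
      calc (2 : ℝ) ^ (L - a) * law q (fun ω => (X' ω, Z' ω)) (X' ω, Z' ω) ≤
          (2 : ℝ) ^ (L - a) * (Real.exp e₁ * (μ (Z' ω).1 / 2 ^ a) / P / 2 ^ (L - a)) :=
            mul_le_mul_of_nonneg_left (k1 ω hω) hr.le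
        _ = _ := by field_simp
    have h4 : u / K ≤ Real.exp e₁ * (μ (Z' ω).1 / 2 ^ a) / P / law q Z' (Z' ω) / K :=
      div_le_div_of_nonneg_right h3 hKpos.le
    have h5 : Real.log ((2 : ℝ) ^ (L - a)) +
        Real.log (law q (fun ω => (X' ω, Z' ω)) (X' ω, Z' ω)) - Real.log (law q Z' (Z' ω)) ≤
        (Real.log K - 1) + Real.exp e₁ * (μ (Z' ω).1 / 2 ^ a) / P / law q Z' (Z' ω) / K := by
      rw [← h1]; linarith only [h2, h4]
    have h6 := mul_le_mul_of_nonneg_left h5 hω.le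
    rw [mul_div_assoc]
    nlinarith only [h6, h6]
  refine (Finset.sum_le_sum fun ω _ => k4 ω).trans ?_
  rw [Finset.sum_add_distrib, ← Finset.sum_mul, hq.sum_one, one_mul, ← Finset.sum_div]
  have k5 : ∑ ω, q ω * (Real.exp e₁ * (μ (Z' ω).1 / 2 ^ a) / P / law q Z' (Z' ω)) ≤ K := by
    rw [sum_mul_eq_sum_image q Z' (fun z => Real.exp e₁ * (μ z.1 / 2 ^ a) / P / law q Z' z)]
    have h1 : ∀ z ∈ univ.image Z', law q Z' z * (Real.exp e₁ * (μ z.1 / 2 ^ a) / P /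
        law q Z' z) ≤ if z ∈ (univ.filter fun ω => 0 < p ω ∧
      cel (2 ^ (L - a)) pos (x ω) = c).image Z' then Real.exp e₁ * (μ z.1 / 2 ^ a) / P else 0 := by
      intro z _
      by_cases h0 : law q Z' z = 0
      · rw [h0, zero_mul]
        split_ifs
        · have := hμ z.1
          positivity
        · exact le_rfl
      · have h2 : z ∈ (univ.filter fun ω => 0 < p ω ∧
            cel (2 ^ (L - a)) pos (x ω) = c).image Z' := by
          by_contra h3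
          apply h0
          unfold law
          refine Finset.sum_eq_zero fun ω _ => ?_
          by_cases h4 : Z' ω = z
          · rw [if_pos h4]
            by_contra h5
            apply h3
            rw [Finset.mem_image]
            refine ⟨ω, ?_, h4⟩
            rw [Finset.mem_filter]
            exact ⟨Finset.mem_univ _, (cond_pos_iff hp _ _ ω).1
              (lt_of_le_of_ne (hq.nonneg ω) (Ne.symm h5))⟩
          · rw [if_neg h4]
        rw [if_pos h2, mul_div_cancel₀ _ h0]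
    refine (Finset.sum_le_sum h1).trans ?_
    rw [← Finset.sum_filter]
    have h2 : (univ.image Z').filter (fun z => z ∈ (univ.filter fun ω => 0 < p ω ∧
        cel (2 ^ (L - a)) pos (x ω) = c).image Z') ⊆ (univ.filter fun ω => 0 < p ω ∧
        cel (2 ^ (L - a)) pos (x ω) = c).image Z' := fun z hz => (Finset.mem_filter.1 hz).2
    refine (Finset.sum_le_sum_of_subset_of_nonneg h2 fun z _ _ => ?_).trans ?_
    · have := hμ z.1
      positivity
    have h3 : ∑ z ∈ (univ.filter fun ω => 0 < p ω ∧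
        cel (2 ^ (L - a)) pos (x ω) = c).image Z', Real.exp e₁ * (μ z.1 / 2 ^ a) / P =
        Real.exp e₁ / P * ∑ z ∈ (univ.filter fun ω => 0 < p ω ∧
        cel (2 ^ (L - a)) pos (x ω) = c).image Z', μ z.1 / 2 ^ a := by
      rw [Finset.mul_sum]
      refine Finset.sum_congr rfl fun z _ => ?_
      ring
    rw [h3]
    have h4 : 0 ≤ Real.exp e₁ / P := div_nonneg (Real.exp_pos _).le hc.le
    calc _ ≤ Real.exp e₁ / P * (K' * P) := by
          refine mul_le_mul_of_nonneg_left ?_ h4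
          convert hν using 2
      _ = K := by
          rw [hKdef]
          field_simp
  have k6 : (∑ ω, q ω * (Real.exp e₁ * (μ (Z' ω).1 / 2 ^ a) / P / law q Z' (Z' ω))) / K ≤ 1 :=
    (div_le_one hKpos).2 k5
  have k7 : Real.log K = e₁ + Real.log K' := by
    rw [hKdef, Real.log_mul (Real.exp_pos _).ne' hK.ne', Real.log_exp]
  linarith only [k6, k7]

open Classical in
/-- The segments which meet the cell `c`. -/
noncomputable def Zc (L a : ℕ) (p : Ω → ℝ) (lam : Ω → Λ) (x : Ω → Ξ) (T : Ξ → ℕ)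
    (pos : Ξ → Option (Fin n) → ℕ) (c : Option (Fin n) → ℕ) : Finset (Λ × ℕ) :=
  (univ.filter fun ω => 0 < p ω ∧ cel (2 ^ (L - a)) pos (x ω) = c).image
    (fun ω => (lam ω, T (x ω) / 2 ^ (L - a)))

open Classical in
/-- A segment meets few cells. -/
lemma cells_card (hl : Leaf n (2 ^ L) C₀ p lam x T pos A B) (hC : 1 ≤ C₀) (ha : a ≤ L)
    (𝒞 : Finset (Option (Fin n) → ℕ)) (z : Λ × ℕ) :
    (𝒞.filter fun c => z ∈ Zc L a p lam x T pos c).card ≤ (2 * (⌈2 * C₀⌉₊ + 2) + 2) ^ (n + 1) := by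
  set K₁ := ⌈2 * C₀⌉₊ + 2 with hK₁
  have hK : 2 * C₀ + 2 ≤ (K₁ : ℝ) := by
    rw [hK₁]; push_cast
    have := Nat.le_ceil (2 * C₀)
    linarith only [this]
  set m : Option (Fin n) → ℤ := fun i => ⌊2 ^ a * A z.1 i + (z.2 : ℝ) * B z.1 i⌋ with hm
  have h1 : (𝒞.filter fun c => z ∈ Zc L a p lam x T pos c).image
      (fun c => (fun i => (c i : ℤ) : Option (Fin n) → ℤ)) ⊆
      Fintype.piFinset (fun i => Finset.Icc (m i - K₁) (m i + K₁ + 1)) := by
    intro y hy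
    obtain ⟨c, hc, rfl⟩ := Finset.mem_image.1 hy
    have hz := (Finset.mem_filter.1 hc).2
    obtain ⟨ω, hω, rfl⟩ := Finset.mem_image.1 hz
    obtain ⟨-, hω1, hω2⟩ := Finset.mem_filter.1 hω
    rw [Fintype.mem_piFinset]
    intro i
    have hr : 0 < 2 ^ (L - a) := by positivity
    have hr' : (0 : ℝ) < (2 : ℝ) ^ (L - a) := by positivity
    have hr1 : (1 : ℝ) ≤ (2 : ℝ) ^ (L - a) := one_le_pow₀ (by norm_num)
    have s1 := scaled hl ha ω i
    have e1 := dm (pos (x ω) i) (2 ^ (L - a)) hr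
    have e2 := dm (T (x ω)) (2 ^ (L - a)) hr
    have hc : pos (x ω) i / 2 ^ (L - a) = c i := congrFun hω2 i
    rw [hc] at e1
    push_cast at e1 e2
    have b1 : (pos (x ω) i % 2 ^ (L - a) : ℕ) ≤ 2 ^ (L - a) := (Nat.mod_lt _ hr).le
    have b2 : (T (x ω) % 2 ^ (L - a) : ℕ) ≤ 2 ^ (L - a) := (Nat.mod_lt _ hr).le
    have b1' : ((pos (x ω) i % 2 ^ (L - a) : ℕ) : ℝ) / (2 : ℝ) ^ (L - a) ≤ 1 := by
      rw [div_le_one hr']; exact_mod_cast b1
    have b2' : ((T (x ω) % 2 ^ (L - a) : ℕ) : ℝ) / (2 : ℝ) ^ (L - a) ≤ 1 := by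
      rw [div_le_one hr']; exact_mod_cast b2
    have b3 : 0 ≤ ((pos (x ω) i % 2 ^ (L - a) : ℕ) : ℝ) / (2 : ℝ) ^ (L - a) := by positivity
    have b4 : 0 ≤ ((T (x ω) % 2 ^ (L - a) : ℕ) : ℝ) / (2 : ℝ) ^ (L - a) := by positivity
    have b5 : |((T (x ω) % 2 ^ (L - a) : ℕ) : ℝ) / (2 : ℝ) ^ (L - a) * B (lam ω) i| ≤ C₀ := by
      rw [abs_mul, abs_of_nonneg b4]
      calc _ ≤ 1 * C₀ := mul_le_mul b2' (hl.B_le ω i) (abs_nonneg _) (by norm_num)
        _ = C₀ := one_mul _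
    have b6 : C₀ / (2 : ℝ) ^ (L - a) ≤ C₀ := div_le_self (by linarith only [hC]) hr1
    rw [e1, e2] at s1
    have s2 : |(c i : ℝ) - (2 ^ a * A (lam ω) i +
        ((T (x ω) / 2 ^ (L - a) : ℕ) : ℝ) * B (lam ω) i)| ≤ 2 * C₀ + 1 := by
      rw [abs_le] at s1 b5 ⊢
      rw [add_mul] at s1
      constructor <;> linarith [s1.1, s1.2, b5.1, b5.2]
    have f1 : ((m i : ℤ) : ℝ) ≤ 2 ^ a * A (lam ω) i +
        ((T (x ω) / 2 ^ (L - a) : ℕ) : ℝ) * B (lam ω) i := Int.floor_le _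
    have f2 : 2 ^ a * A (lam ω) i +
        ((T (x ω) / 2 ^ (L - a) : ℕ) : ℝ) * B (lam ω) i < (m i : ℝ) + 1 := Int.lt_floor_add_one _
    rw [abs_le] at s2
    rw [Finset.mem_Icc]
    constructor
    · have : ((m i - K₁ : ℤ) : ℝ) ≤ ((c i : ℤ) : ℝ) := by
        push_cast; linarith only [hK, s2, f1, s2.1, s2.2]
      exact_mod_cast this
    · have : ((c i : ℤ) : ℝ) ≤ ((m i + K₁ + 1 : ℤ) : ℝ) := by
        push_cast; linarith only [hK, s2, f2, s2.1, s2.2]
      exact_mod_cast this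
  have h2 : ((𝒞.filter fun c => z ∈ Zc L a p lam x T pos c).image
      (fun c => (fun i => (c i : ℤ) : Option (Fin n) → ℤ))).card =
      (𝒞.filter fun c => z ∈ Zc L a p lam x T pos c).card := by
    refine Finset.card_image_of_injective _ fun c c' h => ?_
    funext i
    have := congrFun h i
    simpa using this
  rw [← h2]
  refine (Finset.card_le_card h1).trans ?_
  rw [Fintype.card_piFinset]
  have h3 : ∀ i : Option (Fin n), (Finset.Icc (m i - K₁) (m i + K₁ + 1)).card = 2 * K₁ + 2 := by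
    intro i
    rw [Int.card_Icc]
    omega
  rw [Finset.prod_congr rfl fun i _ => h3 i]
  simp

open Classical in
lemma nu_sum {μ : Λ → ℝ} (hl : Leaf n (2 ^ L) C₀ p lam x T pos A B) (hC : 1 ≤ C₀) (ha : a ≤ L)
    (hμ : ∀ l, 0 ≤ μ l) (hμ1 : ∀ F : Finset Λ, ∑ l ∈ F, μ l ≤ 1)
    (𝒞 : Finset (Option (Fin n) → ℕ)) :
    ∑ c ∈ 𝒞, ∑ z ∈ Zc L a p lam x T pos c, μ z.1 / 2 ^ a ≤
      ((2 * (⌈2 * C₀⌉₊ + 2) + 2) ^ (n + 1) : ℕ) := by
  set Z' : Ω → Λ × ℕ := fun ω => (lam ω, T (x ω) / 2 ^ (L - a)) with hZ'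
  set ZA : Finset (Λ × ℕ) := univ.image Z' with hZA
  have hsub : ∀ c, Zc L a p lam x T pos c ⊆ ZA := fun c =>
    Finset.image_subset_image (Finset.filter_subset _ _)
  have hf : ∀ z : Λ × ℕ, 0 ≤ μ z.1 / 2 ^ a := fun z => div_nonneg (hμ _) (by positivity)
  have h1 : ∀ c ∈ 𝒞, ∑ z ∈ Zc L a p lam x T pos c, μ z.1 / 2 ^ a =
      ∑ z ∈ ZA, if z ∈ Zc L a p lam x T pos c then μ z.1 / 2 ^ a else 0 := by
    intro c _
    rw [← Finset.sum_filter]
    congr 1
    ext z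
    rw [Finset.mem_filter]
    exact ⟨fun h => ⟨hsub c h, h⟩, fun h => h.2⟩
  rw [Finset.sum_congr rfl h1, Finset.sum_comm]
  have h2 : ∀ z ∈ ZA, ∑ c ∈ 𝒞, (if z ∈ Zc L a p lam x T pos c then μ z.1 / 2 ^ a else 0) ≤
      ((2 * (⌈2 * C₀⌉₊ + 2) + 2) ^ (n + 1) : ℕ) * (μ z.1 / 2 ^ a) := by
    intro z _
    rw [← Finset.sum_filter, Finset.sum_const, nsmul_eq_mul]
    refine mul_le_mul_of_nonneg_right ?_ (hf z)
    exact_mod_cast cells_card hl hC ha 𝒞 z
  refine (Finset.sum_le_sum h2).trans ?_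
  rw [← Finset.mul_sum]
  have h3 : ∑ z ∈ ZA, μ z.1 / 2 ^ a ≤ 1 := by
    have h4 : ZA ⊆ (univ.image lam) ×ˢ (Finset.range (2 ^ a)) := by
      intro z hz
      obtain ⟨ω, -, rfl⟩ := Finset.mem_image.1 hz
      rw [Finset.mem_product]
      refine ⟨Finset.mem_image_of_mem _ (Finset.mem_univ _), ?_⟩
      rw [Finset.mem_range]
      change T (x ω) / 2 ^ (L - a) < 2 ^ a
      rw [Nat.div_lt_iff_lt_mul (by positivity), ← pow_add]
      have := hl.T_lt ω
      rwa [show a + (L - a) = L by omega]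
    refine (Finset.sum_le_sum_of_subset_of_nonneg h4 fun z _ _ => hf z).trans ?_
    rw [Finset.sum_product]
    have h5 : ∀ l ∈ univ.image lam, ∑ s ∈ Finset.range (2 ^ a), μ (l, s).1 / 2 ^ a = μ l := by
      intro l _
      simp only [Finset.sum_const, Finset.card_range, nsmul_eq_mul]
      push_cast
      field_simp
    rw [Finset.sum_congr rfl h5]
    exact hμ1 _
  calc _ ≤ (((2 * (⌈2 * C₀⌉₊ + 2) + 2) ^ (n + 1) : ℕ) : ℝ) * 1 :=
        mul_le_mul_of_nonneg_left h3 (Nat.cast_nonneg _)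
    _ = _ := mul_one _

end geo

theorem cel_thm : CELStmt := by
  classical
  intro n C₀ hC
  set C₁ : ℝ := (((2 * (⌈2 * C₀⌉₊ + 2) + 2) ^ (n + 1) : ℕ) : ℝ) with hC₁
  have hC₁' : 1 ≤ C₁ := by
    rw [hC₁]
    exact_mod_cast Nat.one_le_pow _ _ (by omega)
  refine ⟨1 + Real.log (4 * C₁), ?_, ?_⟩
  · have := Real.log_nonneg (x := 4 * C₁) (by linarith only [hC₁'])
    linarith only [this]
  intro Ω Λ Ξ _ p lam x T pos A B μ i₀ L κ γ a δ ε e₁ e₃ hS hTC ha hκ hdet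
  have hlog : 0 ≤ Real.log (4 * C₁) := Real.log_nonneg (by linarith only [hC₁'])
  constructor
  · have hp := hS.leaf.isLaw.nonneg
    set E : Set Ω := {ω | ¬ Cg L a κ γ (3 * C₀) δ ε (e₁ + (1 + Real.log (4 * C₁))) e₃ p lam x T
      pos A B (cel (2 ^ (L - a)) pos (x ω))} with hE
    set P : (Option (Fin n) → ℕ) → ℝ :=
      law p (fun ω => cel (2 ^ (L - a)) pos (x ω)) with hP
    set 𝒞 : Finset (Option (Fin n) → ℕ) := (univ.filter fun ω => 0 < p ω ∧ ω ∈ E).image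
      (fun ω => cel (2 ^ (L - a)) pos (x ω)) with h𝒞
    have h1 : ∀ c ∈ 𝒞, P c ≤ (∑ z ∈ Zc L a p lam x T pos c, μ z.1 / 2 ^ a) / (4 * C₁) := by
      intro c hc
      obtain ⟨ω, hω, rfl⟩ := Finset.mem_image.1 hc
      obtain ⟨-, hω1, hω2⟩ := Finset.mem_filter.1 hω
      by_contra hcon
      push Not at hcon
      rw [div_lt_iff₀ (by positivity)] at hcon
      apply hω2
      have hPpos : 0 < law p (fun ω => cel (2 ^ (L - a)) pos (x ω))
          (cel (2 ^ (L - a)) pos (x ω)) := law_pos hp (fun ω => cel (2 ^ (L - a)) pos (x ω)) hω1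
      refine ⟨leafOc hS.leaf hC ha hPpos, hS.δ_pos, hS.ε_nonneg, ncfOc hS.leaf hS.ncf hPpos,
        hdet, hκ, ?_, hS.e₃_nonneg, ?_, thinOc hS.leaf hS.thin hPpos⟩
      · have := hS.e₁_nonneg
        linarith only [hlog, this]
      · have h2 := timeOc (K' := 4 * C₁) hS.leaf ha hS.time hPpos (by positivity) hS.μ_nonneg (by
          refine le_trans (le_of_eq ?_) (hcon.le.trans (le_of_eq ?_))
          · unfold Zc
            rfl
          · rw [mul_comm])
        linarith only [h2]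
    have h2 : Pr p E ≤ ∑ c ∈ 𝒞, P c := by
      have h3 : ∑ c ∈ 𝒞, P c = ∑ ω, if cel (2 ^ (L - a)) pos (x ω) ∈ 𝒞 then p ω else 0 := by
        rw [hP]
        unfold law
        rw [Finset.sum_comm]
        refine Finset.sum_congr rfl fun ω _ => ?_
        simp only
        by_cases h5 : cel (2 ^ (L - a)) pos (x ω) ∈ 𝒞
        · rw [if_pos h5, Finset.sum_eq_single_of_mem _ h5, if_pos rfl]
          intro b _ hb
          rw [if_neg (Ne.symm hb)]
        · rw [if_neg h5]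
          refine Finset.sum_eq_zero fun b hb => ?_
          rw [if_neg]
          intro h6
          exact h5 (h6 ▸ hb)
      rw [h3]
      unfold Pr law
      refine Finset.sum_le_sum fun ω _ => ?_
      by_cases h4 : (ω ∈ E) = True
      · rw [if_pos h4]
        by_cases h5 : 0 < p ω
        · rw [if_pos (Finset.mem_image_of_mem _ (Finset.mem_filter.2
            ⟨Finset.mem_univ _, h5, of_eq_true h4⟩))]
        · have h6 : p ω = 0 := le_antisymm (not_lt.1 h5) (hp ω)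
          rw [h6]; simp
      · rw [if_neg h4]
        split_ifs
        · exact hp ω
        · exact le_rfl
    refine h2.trans ((Finset.sum_le_sum h1).trans ?_)
    rw [← Finset.sum_div, div_le_iff₀ (by positivity)]
    have h3 := nu_sum hS.leaf hC ha hS.μ_nonneg hS.μ_sum 𝒞
    rw [← hC₁] at h3
    linarith only [h3]
  · intro c ω
    obtain ⟨h1, h2, h3⟩ := hTC ω.1
    have hc : pos (x ω.1) (some i₀) / 2 ^ (L - a) = c (some i₀) := congrFun ω.2.2 (some i₀)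
    refine ⟨?_, ?_, h3⟩
    · change pos (x ω.1) (some i₀) % 2 ^ (L - a) = T (x ω.1) % 2 ^ (L - a)
      rw [h1]
    · unfold Ac lamc
      simp only
      rw [h2, h3, ← hc, h1]
      field_simp
      ring

end Pool.Agent.H40.KBX
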